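import Pool.Agent.H.MP_0234e1_an.C

set_option autoImplicit false
open Polynomial Real

namespace Pool.Agent.H.MP_172a45_an
open Pool.Agent.H.MP_0234e1_an

lemma key {N : ℕ} (z : Fin (N + 1) → ℂ) (w : Fin N → ℂ)
    (h : derivative (∏ k, (X - C (z k))) = C ((N : ℂ) + 1) * ∏ j, (X - C (w j)))
    (hz : ∀ k, ‖z k‖ ≤ 1) (hw : ∀ j, ‖w j‖ ≤ 1) {η : ℝ} (h0 : 0 < η) (h1 : η < 1)
    (hN : 256 / (η / 2) ^ 3 ≤ N) (k₀ : Fin (N + 1)) (hd : ∀ j, z k₀ - w j ≠ 0) :
    N * (1 - η) ≤ ∑ j, 1 / ‖z k₀ - w j‖ := by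
  by_contra hcon
  push Not at hcon
  obtain ⟨n1, n2⟩ := numeric (half_pos h0) (by linarith) hN
  have hN0 : (0 : ℝ) ≤ N := N.cast_nonneg
  set v : Fin N → ℂ := fun j => z k₀ / (z k₀ - w j) with hv
  have hy : ∑ j, ‖1 - v j‖ ≤ ∑ j, 1 / ‖z k₀ - w j‖ := Finset.sum_le_sum fun j _ => by
    have : 1 - v j = -w j / (z k₀ - w j) := by
      have := hd j
      simp only [hv]
      field_simp
      ring
    rw [this, norm_div, norm_neg]
    exact div_le_div_of_nonneg_right (hw j) (norm_nonneg _)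
  have hc := core v (κ := η / 2 * N - 1) (by linarith) (by rw [Fintype.card_fin]; nlinarith)
  rw [Fintype.card_fin] at hc
  have hc2 : 4 * (∑ j, ‖1 - v j‖) / (η / 2 * N - 1 - 1) ^ 2 ≤
      4 * (N + 1) / (η / 2 * N - 1 - 1) ^ 2 :=
    div_le_div_of_nonneg_right (by nlinarith) (sq_nonneg _)
  set I := ∫ t in (0:ℝ)..1, ∏ j, (1 - (t : ℂ) * v j) with hI
  have hF : ∏ k, (0 - z k) = -z k₀ * (N + 1) * (∏ j, (z k₀ - w j)) * I := by
    have hD : ∀ t : ℝ, HasDerivAt (fun t : ℝ => (∏ k, (X - C (z k))).eval (z k₀ + t * -z k₀))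
        (-z k₀ * (N + 1) * (∏ j, (z k₀ - w j)) * ∏ j, (1 - (t : ℂ) * v j)) t := by
      intro t
      have a1 : HasDerivAt (fun s : ℂ => z k₀ + s * -z k₀) (-z k₀) t := by
        simpa using ((hasDerivAt_id (t : ℂ)).mul_const (-z k₀)).const_add (z k₀)
      have a2 := (((∏ k, (X - C (z k))).hasDerivAt (z k₀ + t * -z k₀)).comp (t : ℂ) a1).comp_ofReal
      refine HasDerivAt.congr_deriv a2 ?_
      rw [h, mul_assoc _ (∏ j, (z k₀ - w j)), ← Finset.prod_mul_distrib]
      simp only [eval_mul, eval_C, eval_prod, eval_sub, eval_X]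
      rw [Finset.prod_congr rfl (g := fun j => (z k₀ - w j) * (1 - (t : ℂ) * v j)) fun j _ => by
        have := hd j
        simp only [hv]
        field_simp
        ring]
      ring
    have := intervalIntegral.integral_eq_sub_of_hasDerivAt (a := 0) (b := 1) (fun t _ => hD t)
      (Continuous.intervalIntegrable (by fun_prop) _ _)
    rw [intervalIntegral.integral_const_mul] at this
    rw [this]
    simp only [eval_prod, eval_sub, eval_X, eval_C, Complex.ofReal_one, one_mul,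
      Complex.ofReal_zero, zero_mul, add_zero, add_neg_cancel]
    rw [Finset.prod_eq_zero (f := fun k => z k₀ - z k) (Finset.mem_univ k₀) (sub_self _), sub_zero]
  have u1 : ‖∏ k, (0 - z k)‖ ≤ 1 := by
    rw [norm_prod]
    exact Finset.prod_le_one (fun _ _ => norm_nonneg _) fun k _ => by simpa using hz k
  have u2 : exp (η * N) ≤ ‖∏ j, (z k₀ - w j)‖ := by
    rw [norm_prod]
    refine le_trans ?_ (Finset.prod_le_prod (f := fun j => exp (1 - 1 / ‖z k₀ - w j‖))
      (fun _ _ => (exp_pos _).le) fun j _ => ?_)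
    · rw [← exp_sum, exp_le_exp, Finset.sum_sub_distrib]
      simp only [Finset.sum_const, Finset.card_univ, Fintype.card_fin, nsmul_eq_mul, mul_one]
      linarith
    · have a1 := norm_pos_iff.2 (hd j)
      have a2 := add_one_le_exp (1 / ‖z k₀ - w j‖ - 1)
      rw [← neg_sub, exp_neg, inv_le_comm₀ (exp_pos _) a1, ← one_div]
      linarith
  have u3 : ‖∑ j, v j‖ ≤ ‖z k₀‖ * (N + 1) := by
    have : ‖∑ j, v j‖ ≤ ∑ j, ‖z k₀‖ * (1 / ‖z k₀ - w j‖) :=
      (norm_sum_le _ _).trans (Finset.sum_le_sum fun j _ => by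
        simp only [hv, norm_div, mul_one_div, le_refl])
    rw [← Finset.mul_sum] at this
    exact this.trans (mul_le_mul_of_nonneg_left (by nlinarith) (norm_nonneg _))
  have u4 : ‖(N : ℂ) + 1‖ = N + 1 := by exact_mod_cast Complex.norm_natCast (N + 1)
  rw [hF, norm_mul, norm_mul, norm_mul, u4, norm_neg] at u1
  rw [norm_mul] at hc
  have u5 : ‖∑ j, v j‖ * exp (η * N) * ‖I‖ ≤ ‖z k₀‖ * (N + 1) * ‖∏ j, (z k₀ - w j)‖ * ‖I‖ := by
    gcongr
  have u6 : exp (η * N) * exp (-((N + 1) * (η / 2))) < exp (η * N) * (‖∑ j, v j‖ * ‖I‖) :=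
    mul_lt_mul_of_pos_left (by linarith) (exp_pos _)
  rw [← exp_add] at u6
  have := add_one_le_exp (η * N + -((N + 1) * (η / 2)))
  nlinarith

end Pool.Agent.H.MP_172a45_an
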